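import Pool.Agent.X265.Gri.Depth
import Pool.Agent.Results.MP_b99418_al.ExactLength

/-! The Grigorchuk group: long elements of small depth (from the starting result `ExactLength`). -/

set_option autoImplicit false

namespace Pool.Agent.X265.Gri

open S

open Pool.Agent.Results.MP_b99418_al (ExactLength.Gen)

namespace EL
export Pool.Agent.Results.MP_b99418_al.ExactLength (Gen act ev P R Rep L length_ge rep_R length_R ev_P
  ev_S_tau par_length count_tau even_b tau A S)
end EL

/-- translation of the letters -/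
def kap : EL.Gen → S
  | .a => a
  | .b => b
  | .c => c
  | .d => d

/-- translation of the letters -/
def kap' : S → EL.Gen
  | a => .a
  | b => .b
  | c => .c
  | d => .d

theorem kap_kap' (s : S) : kap (kap' s) = s := by cases s <;> rfl

theorem act_kap (w : List Bool) : ∀ x : EL.Gen, EL.act x w = act (some (kap x)) w := by
  induction w with
  | nil => intro x; cases x <;> rfl
  | cons y w ih =>
    intro x
    cases x <;> cases y <;>
      simp only [Pool.Agent.Results.MP_b99418_al.ExactLength.act, kap, act, out, nxt, act_none, ih]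

theorem ev_kap (u : List EL.Gen) (w : List Bool) : EL.ev u w = ev (u.map kap) w := by
  induction u with
  | nil => rfl
  | cons x u ih =>
    rw [List.map_cons, ev_cons, Equiv.Perm.mul_apply, ← ih, gen_apply, ← act_kap]
    rfl

/-- the long elements -/
def G0 (m : ℕ) : Equiv.Perm (List Bool) := ev ((EL.P (EL.R m)).map kap)

theorem G0_rec (m : ℕ) : G0 (m + 1) = pr (gen a * G0 m * gen a) (G0 m) := by
  have hpar : Pool.Agent.Results.MP_b99418_al.ExactLength.par
      ((EL.R m).flatMap EL.tau) = false := by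
    rw [EL.par_length, (EL.count_tau (EL.R m)).2.2.2.2]
    obtain ⟨k, hk⟩ := EL.even_b m
    have : 3 * (EL.R m).count .b + 2 * (EL.R m).count .c + 2 * (EL.R m).count .d =
        2 * (3 * k + (EL.R m).count .c + (EL.R m).count .d) := by rw [hk]; ring
    rw [this]
    simp
  ext1 w
  unfold G0
  rw [← ev_kap]
  rcases w with _ | ⟨s, w⟩
  · rw [pr_nil]
    have := Pool.Agent.Results.MP_b99418_al.ExactLength.length_ev (EL.P (EL.R (m + 1))) []
    exact List.length_eq_zero_iff.1 this
  · rw [show EL.R (m + 1) = (EL.R m).flatMap EL.tau from rfl, EL.ev_P, EL.ev_S_tau, hpar]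
    cases s
    · rw [pr_false]
      simp only [Bool.xor_false, Pool.Agent.Results.MP_b99418_al.ExactLength.A]
      congr 1
      rw [ev_kap]
      simp only [List.map_append, List.map_cons, List.map_nil, ev_append, ev_cons, ev_nil, mul_one]
      rfl
    · rw [pr_true]
      simp only [Bool.xor_false, Pool.Agent.Results.MP_b99418_al.ExactLength.A]
      congr 1
      rw [ev_kap]
      simp

theorem DL_conj (n : ℕ) (l : List S) : DL (n + 1) ⇑(gen a * ev l * gen a) ↔ DL (n + 1) (ev l) := by
  obtain ⟨ε, l0, l1, -, -, h⟩ := split l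
  have : gen a * ev l * gen a = (bif ε then gen a else 1) * pr (ev l1) (ev l0) := by
    rw [h, ← swap (ev l0) (ev l1)]
    cases ε
    · simp only [cond_false, one_mul]
    · simp only [cond_true, mul_assoc]
  rw [this, h, DL_succ, DL_succ]
  exact and_comm

theorem DL_G0 (m : ℕ) : DL (m + 2) (G0 m) := by
  induction m with
  | zero =>
    have h0 : ∀ s : S, DL 0 (gen s) := by
      intro s u hu
      have : u = [] := List.length_eq_zero_iff.1 hu
      subst this
      exact ⟨some s, rfl⟩
    have h1 : DL 0 ⇑(1 : Equiv.Perm (List Bool)) := by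
      intro u hu
      have : u = [] := List.length_eq_zero_iff.1 hu
      subst this
      refine ⟨none, ?_⟩
      funext w
      rw [act_none]
      rfl
    have e1 : G0 0 = pr (gen d * gen a) (gen a * gen d) := by
      show ev [a, c, a, c] = _
      have h3 : gen a * gen c * gen a = pr (gen d) (gen a) := by rw [genc, swap]
      calc ev [a, c, a, c] = (gen a * gen c * gen a) * gen c := by simp [mul_assoc]
        _ = pr (gen d) (gen a) * pr (gen a) (gen d) := by rw [h3, ← genc]
        _ = _ := by rw [pr_mul]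
    have e2 : G0 0 = (bif false then gen a else 1) * pr (gen d * gen a) (gen a * gen d) := by
      rw [e1]; simp
    have e3 : gen d * gen a = (bif true then gen a else 1) * pr (gen b) 1 := by
      rw [← swap 1 (gen b), ← gend]
      simp only [cond_true, ← mul_assoc, gen_mul_self, one_mul]
    have e4 : gen a * gen d = (bif true then gen a else 1) * pr 1 (gen b) := by
      rw [← gend]; rfl
    rw [e2, DL_succ]
    constructor
    · rw [e3, DL_succ]; exact ⟨h0 b, h1⟩
    · rw [e4, DL_succ]; exact ⟨h1, h0 b⟩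
  | succ m ih =>
    have e2 : G0 (m + 1) = (bif false then gen a else 1) * pr (gen a * G0 m * gen a) (G0 m) := by
      rw [G0_rec]; simp
    rw [e2, DL_succ]
    exact ⟨(DL_conj _ _).2 ih, ih⟩

theorem G0_length (m : ℕ) (l : List S) (hl : ev l = G0 m) : EL.L (m + 2) ≤ l.length := by
  have h : EL.Rep (m + 2) (l.map kap') := by
    intro w hw
    rw [← EL.rep_R m w hw, ev_kap, ev_kap, List.map_map]
    have : kap ∘ kap' = id := funext kap_kap'
    rw [this, List.map_id, hl]
    rfl
  have := EL.length_ge (by omega) h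
  simpa using this

theorem L_growth (x : ℝ) (hx : 0 < x) (h3 : x ^ 3 = x ^ 2 + 2 * x + 4) (m : ℕ) :
    x ^ m ≤ (1 + x) ^ 2 * (EL.L (m + 2) : ℝ) := by
  have key : ∀ m : ℕ, x ^ m ≤ (1 + x) ^ 2 * (EL.L (m + 2) : ℝ) ∧
      x ^ (m + 1) ≤ (1 + x) ^ 2 * (EL.L (m + 3) : ℝ) ∧
      x ^ (m + 2) ≤ (1 + x) ^ 2 * (EL.L (m + 4) : ℝ) := by
    intro m
    induction m with
    | zero =>
      have e2 : (EL.L 2 : ℝ) = 4 := by norm_num [Pool.Agent.Results.MP_b99418_al.ExactLength.L]
      have e3 : (EL.L 3 : ℝ) = 8 := by norm_num [Pool.Agent.Results.MP_b99418_al.ExactLength.L]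
      have e4 : (EL.L 4 : ℝ) = 24 := by norm_num [Pool.Agent.Results.MP_b99418_al.ExactLength.L]
      refine ⟨?_, ?_, ?_⟩
      · show x ^ 0 ≤ (1 + x) ^ 2 * (EL.L 2 : ℝ)
        rw [e2]; nlinarith
      · show x ^ 1 ≤ (1 + x) ^ 2 * (EL.L 3 : ℝ)
        rw [e3]; nlinarith
      · show x ^ 2 ≤ (1 + x) ^ 2 * (EL.L 4 : ℝ)
        rw [e4]; nlinarith
    | succ m ih =>
      obtain ⟨i1, i2, i3⟩ := ih
      refine ⟨i2, i3, ?_⟩
      have e : (EL.L (m + 5) : ℝ) = EL.L (m + 4) + 2 * EL.L (m + 3) + 4 * EL.L (m + 2) := by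
        rw [show m + 5 = (m + 2) + 3 by ring]
        show ((Pool.Agent.Results.MP_b99418_al.ExactLength.L ((m + 2) + 3) : ℕ) : ℝ) = _
        rw [Pool.Agent.Results.MP_b99418_al.ExactLength.L]
        push_cast
        ring
      have e5 : x ^ (m + 1 + 2) = x ^ (m + 2) + 2 * x ^ (m + 1) + 4 * x ^ m := by
        calc x ^ (m + 1 + 2) = x ^ m * x ^ 3 := by ring
          _ = x ^ m * (x ^ 2 + 2 * x + 4) := by rw [h3]
          _ = _ := by ring
      show x ^ (m + 1 + 2) ≤ (1 + x) ^ 2 * (EL.L (m + 5) : ℝ)
      rw [e5, e]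
      nlinarith
  exact (key m).1

end Pool.Agent.X265.Gri
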