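import Mathlib

/-! The Grigorchuk group: basic identities. -/

set_option autoImplicit false

namespace Pool.Agent.X265.Gri

/-- the letters `a`, `b`, `c`, `d` -/
inductive S | a | b | c | d
  deriving DecidableEq

open S

/-- the new state after reading a letter of the alphabet (`none` is the identity state) -/
def nxt : Option S → Bool → Option S
  | none, _ => none
  | some a, _ => none
  | some b, false => some a
  | some b, true => some c
  | some c, false => some a
  | some c, true => some d
  | some d, false => none
  | some d, true => some b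

/-- the letter which is written -/
def out : Option S → Bool → Bool
  | some a, x => !x
  | _, x => x

/-- the action of a state on words -/
def act : Option S → List Bool → List Bool
  | _, [] => []
  | q, x :: w => out q x :: act (nxt q x) w

theorem act_none (w : List Bool) : act none w = w := by
  induction w with
  | nil => rfl
  | cons x w ih => show out none x :: act (nxt none x) w = _; rw [show nxt none x = none from rfl, ih]; rfl

theorem act_act (q : Option S) (w : List Bool) : act q (act q w) = w := by
  induction w generalizing q with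
  | nil => rfl
  | cons x w ih =>
    show out q (out q x) :: act (nxt q (out q x)) (act (nxt q x) w) = _
    rcases q with _ | s
    · show x :: act none (act none w) = _
      rw [ih]
    · cases s
      · show (!(!x)) :: act none (act none w) = _
        rw [ih, Bool.not_not]
      all_goals
        show x :: act (nxt _ x) (act (nxt _ x) w) = _
        rw [ih]

/-- the permutation of the words given by a letter -/
def gen (s : S) : Equiv.Perm (List Bool) where
  toFun := act (some s)
  invFun := act (some s)
  left_inv := act_act _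
  right_inv := act_act _

theorem gen_apply (s : S) (w : List Bool) : gen s w = act (some s) w := rfl

theorem gen_mul_self (s : S) : gen s * gen s = 1 := by
  ext1 w
  exact act_act _ w

theorem gen_inv (s : S) : (gen s)⁻¹ = gen s := by
  rw [inv_eq_iff_mul_eq_one]
  exact gen_mul_self s

/-- the permutation acting by `g` below the letter `false` and by `h` below the letter `true` -/
def pr (g h : Equiv.Perm (List Bool)) : Equiv.Perm (List Bool) where
  toFun := fun w => match w with
    | [] => []
    | false :: w => false :: g w
    | true :: w => true :: h w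
  invFun := fun w => match w with
    | [] => []
    | false :: w => false :: g.symm w
    | true :: w => true :: h.symm w
  left_inv := by
    rintro (_ | ⟨x, w⟩)
    · rfl
    · cases x <;> simp
  right_inv := by
    rintro (_ | ⟨x, w⟩)
    · rfl
    · cases x <;> simp

theorem pr_nil (g h : Equiv.Perm (List Bool)) : pr g h [] = [] := rfl
theorem pr_false (g h : Equiv.Perm (List Bool)) (w : List Bool) :
    pr g h (false :: w) = false :: g w := rfl
theorem pr_true (g h : Equiv.Perm (List Bool)) (w : List Bool) :
    pr g h (true :: w) = true :: h w := rfl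

theorem pr_mul (g h g' h' : Equiv.Perm (List Bool)) :
    pr g h * pr g' h' = pr (g * g') (h * h') := by
  ext1 w
  rcases w with _ | ⟨x, w⟩
  · rfl
  · cases x <;> rfl

theorem pr_one : pr 1 1 = 1 := by
  ext1 w
  rcases w with _ | ⟨x, w⟩
  · rfl
  · cases x <;> rfl

theorem pr_inv (g h : Equiv.Perm (List Bool)) : (pr g h)⁻¹ = pr g⁻¹ h⁻¹ := by
  rw [inv_eq_iff_mul_eq_one, pr_mul, mul_inv_cancel, mul_inv_cancel, pr_one]

theorem genb : gen b = pr (gen a) (gen c) := by
  ext1 w
  rcases w with _ | ⟨x, w⟩
  · rfl
  · cases x <;> rfl

theorem genc : gen c = pr (gen a) (gen d) := by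
  ext1 w
  rcases w with _ | ⟨x, w⟩
  · rfl
  · cases x <;> rfl

theorem gend : gen d = pr 1 (gen b) := by
  ext1 w
  rcases w with _ | ⟨x, w⟩
  · rfl
  · cases x
    · show false :: act none w = _
      rw [act_none]; rfl
    · rfl

theorem swap (g h : Equiv.Perm (List Bool)) : gen a * pr g h * gen a = pr h g := by
  ext1 w
  rcases w with _ | ⟨x, w⟩
  · rfl
  · cases x
    · show act (some a) (true :: h (act none w)) = _
      rw [act_none]
      show false :: act none (h w) = _
      rw [act_none]; rfl
    · show act (some a) (false :: g (act none w)) = _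
      rw [act_none]
      show true :: act none (g w) = _
      rw [act_none]; rfl

theorem bcd_aux (w : List Bool) : act (some b) (act (some c) w) = act (some d) w ∧
    act (some c) (act (some d) w) = act (some b) w ∧
    act (some d) (act (some b) w) = act (some c) w := by
  induction w with
  | nil => exact ⟨rfl, rfl, rfl⟩
  | cons x w ih =>
    obtain ⟨h1, h2, h3⟩ := ih
    cases x
    · refine ⟨?_, ?_, ?_⟩
      · show false :: act (some a) (act (some a) w) = false :: act none w
        rw [act_act, act_none]
      · show false :: act (some a) (act none w) = false :: act (some a) w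
        rw [act_none]
      · show false :: act none (act (some a) w) = false :: act (some a) w
        rw [act_none]
    · refine ⟨?_, ?_, ?_⟩
      · show true :: act (some c) (act (some d) w) = true :: act (some b) w
        rw [h2]
      · show true :: act (some d) (act (some b) w) = true :: act (some c) w
        rw [h3]
      · show true :: act (some b) (act (some c) w) = true :: act (some d) w
        rw [h1]

theorem bc : gen b * gen c = gen d := by
  ext1 w; exact (bcd_aux w).1
theorem cd : gen c * gen d = gen b := by
  ext1 w; exact (bcd_aux w).2.1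
theorem db : gen d * gen b = gen c := by
  ext1 w; exact (bcd_aux w).2.2
theorem cb : gen c * gen b = gen d := by
  have := congrArg (fun g => g⁻¹) bc
  simpa [mul_inv_rev, gen_inv] using this
theorem dc : gen d * gen c = gen b := by
  have := congrArg (fun g => g⁻¹) cd
  simpa [mul_inv_rev, gen_inv] using this
theorem bd : gen b * gen d = gen c := by
  have := congrArg (fun g => g⁻¹) db
  simpa [mul_inv_rev, gen_inv] using this

/-- `a d` has order 4 -/
theorem ad4 : (gen d * gen a) ^ 4 = 1 := by
  have h1 : gen a * gen d * gen a = pr (gen b) 1 := by rw [gend, swap]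
  have h2 : (gen d * gen a) ^ 2 = pr (gen b) (gen b) := by
    have : (gen d * gen a) ^ 2 = gen d * (gen a * gen d * gen a) := by rw [pow_two]; group
    rw [this, h1, gend, pr_mul, one_mul, mul_one]
  have h3 : (gen d * gen a) ^ 4 = ((gen d * gen a) ^ 2) ^ 2 := by rw [← pow_mul]
  rw [h3, h2, pow_two, pr_mul, gen_mul_self, pr_one]

/-- `a c` has order 8 -/
theorem ac8 : (gen a * gen c) ^ 8 = 1 := by
  have h1 : gen a * gen c * gen a = pr (gen d) (gen a) := by rw [genc, swap]
  have h2 : (gen a * gen c) ^ 2 = pr (gen d * gen a) (gen a * gen d) := by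
    have : (gen a * gen c) ^ 2 = (gen a * gen c * gen a) * gen c := by rw [pow_two]; group
    rw [this, h1]
    conv_lhs => rw [genc]
    rw [pr_mul]
  have h3 : (gen a * gen d) ^ 4 = 1 := by
    have h := ad4
    have h5 : (gen a * gen d) = (gen d * gen a)⁻¹ := by
      rw [mul_inv_rev, gen_inv, gen_inv]
    rw [h5, inv_pow, h, inv_one]
  have h4 : (gen a * gen c) ^ 8 = ((gen a * gen c) ^ 2) ^ 4 := by rw [← pow_mul]
  have h6 : ∀ (g h : Equiv.Perm (List Bool)) (n : ℕ), pr g h ^ n = pr (g ^ n) (h ^ n) := by
    intro g h n
    induction n with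
    | zero => rw [pow_zero, pow_zero, pow_zero, pr_one]
    | succ n ih => rw [pow_succ, ih, pr_mul, ← pow_succ, ← pow_succ]
  rw [h4, h2, h6, ad4, h3, pr_one]

/-- the product of a word -/
def ev (l : List S) : Equiv.Perm (List Bool) := (l.map gen).prod

@[simp] theorem ev_nil : ev [] = 1 := rfl
@[simp] theorem ev_cons (s : S) (l : List S) : ev (s :: l) = gen s * ev l := by
  simp [ev]
@[simp] theorem ev_append (l m : List S) : ev (l ++ m) = ev l * ev m := by
  simp [ev]
theorem ev_reverse (l : List S) : ev l.reverse = (ev l)⁻¹ := by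
  induction l with
  | nil => simp
  | cons s l ih => rw [List.reverse_cons, ev_append, ih, ev_cons, ev_cons, ev_nil, mul_one,
      mul_inv_rev, gen_inv]

/-- the lift of a letter -/
def up : S → List S
  | a => [c]
  | b => [a, d, a]
  | c => [a, b, a]
  | d => [a, c, a]

/-- the lift of a word -/
def Ul (u : List S) : List S := u.flatMap up

@[simp] theorem Ul_nil : Ul [] = [] := rfl
@[simp] theorem Ul_cons (s : S) (u : List S) : Ul (s :: u) = up s ++ Ul u := by simp [Ul]
@[simp] theorem Ul_append (u v : List S) : Ul (u ++ v) = Ul u ++ Ul v := by simp [Ul]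

/-- `e` is the second coordinate of a word which is not longer than the lift of `u` and whose first
coordinate is `u` -/
def R (u : List S) (e : Equiv.Perm (List Bool)) : Prop :=
  ∃ z : List S, z.length = (Ul u).length ∧ ev z = pr (ev u) e

theorem R_nil : R [] 1 := ⟨[], rfl, by simp [pr_one]⟩

theorem R_append {u u' : List S} {e e' : Equiv.Perm (List Bool)} (h : R u e) (h' : R u' e') :
    R (u ++ u') (e * e') := by
  obtain ⟨z, h1, h2⟩ := h
  obtain ⟨z', h3, h4⟩ := h'
  refine ⟨z ++ z', ?_, ?_⟩
  · rw [List.length_append, h1, h3, Ul_append, List.length_append]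
  · rw [ev_append, h2, h4, pr_mul, ev_append]

theorem R_a_d : R [a] (gen d) := ⟨[c], rfl, by simp [genc]⟩
theorem R_a_c : R [a] (gen c) := ⟨[b], rfl, by simp [genb]⟩
theorem conj_word (s : S) : ev [a, s, a] = gen a * gen s * gen a := by simp [mul_assoc]
theorem R_b : R [b] 1 := ⟨[a, d, a], rfl, by rw [conj_word, gend, swap]; simp [ev]⟩
theorem R_c : R [c] (gen a) := ⟨[a, b, a], rfl, by rw [conj_word, genb, swap]; simp [ev]⟩
theorem R_d : R [d] (gen a) := ⟨[a, c, a], rfl, by rw [conj_word, genc, swap]; simp [ev]⟩

/-- the dihedral group generated by `a` and `d` -/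
def D0 : Subgroup (Equiv.Perm (List Bool)) := Subgroup.closure {gen a, gen d}

theorem a_mem : gen a ∈ D0 := Subgroup.subset_closure (by simp)
theorem d_mem : gen d ∈ D0 := Subgroup.subset_closure (by simp)

theorem exists_R (u : List S) : ∃ e ∈ D0, R u e := by
  induction u with
  | nil => exact ⟨1, one_mem _, R_nil⟩
  | cons s u ih =>
    obtain ⟨e, h1, h2⟩ := ih
    cases s
    · exact ⟨gen d * e, mul_mem d_mem h1, R_append R_a_d h2⟩
    · exact ⟨1 * e, mul_mem (one_mem _) h1, R_append R_b h2⟩
    · exact ⟨gen a * e, mul_mem a_mem h1, R_append R_c h2⟩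
    · exact ⟨gen a * e, mul_mem a_mem h1, R_append R_d h2⟩

/-- the elements of the dihedral group -/
theorem D0_form (w : Equiv.Perm (List Bool)) (hw : w ∈ D0) :
    ∃ i : ℕ, i < 4 ∧ (w = (gen d * gen a) ^ i ∨ w = (gen d * gen a) ^ i * gen d) := by
  have key : ∀ x, (∃ i : ℕ, i < 4 ∧ (x = (gen d * gen a) ^ i ∨ x = (gen d * gen a) ^ i * gen d)) →
      (∃ i : ℕ, i < 4 ∧ (x * gen a = (gen d * gen a) ^ i ∨
        x * gen a = (gen d * gen a) ^ i * gen d)) ∧
      (∃ i : ℕ, i < 4 ∧ (x * gen d = (gen d * gen a) ^ i ∨
        x * gen d = (gen d * gen a) ^ i * gen d)) := by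
    rintro x ⟨i, hi, rfl | rfl⟩
    · refine ⟨?_, i, hi, Or.inr rfl⟩
      rcases i with _ | i
      · refine ⟨3, by norm_num, Or.inr ?_⟩
        have h := ad4
        rw [pow_succ] at h
        have h2 : (gen d * gen a) ^ 3 * gen d * gen a = 1 := by rw [mul_assoc]; exact h
        rw [pow_zero, one_mul]
        exact (mul_eq_one_iff_eq_inv.1 h2 ▸ (gen_inv a).symm)
      · refine ⟨i, by omega, Or.inr ?_⟩
        rw [pow_succ, mul_assoc, mul_assoc, gen_mul_self, mul_one]
    · refine ⟨?_, i, hi, Or.inl ?_⟩
      · rcases Nat.lt_or_ge (i + 1) 4 with h | h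
        · exact ⟨i + 1, h, Or.inl (by rw [pow_succ, mul_assoc])⟩
        · refine ⟨0, by norm_num, Or.inl ?_⟩
          have : i = 3 := by omega
          subst this
          rw [mul_assoc, ← pow_succ, ad4, pow_zero]
      · rw [mul_assoc, gen_mul_self, mul_one]
  induction hw using Subgroup.closure_induction_right with
  | one => exact ⟨0, by norm_num, Or.inl rfl⟩
  | mul_right x hx y hy ih =>
    rcases hy with rfl | rfl
    · exact (key x ih).1
    · exact (key x ih).2
  | mul_inv_cancel x hx y hy ih =>
    rcases hy with rfl | rfl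
    · rw [gen_inv]; exact (key x ih).1
    · rw [gen_inv]; exact (key x ih).2

theorem D0_word (w : Equiv.Perm (List Bool)) (hw : w ∈ D0) :
    ∃ l : List S, l.length ≤ 7 ∧ ev l = w := by
  obtain ⟨i, hi, h⟩ := D0_form w hw
  have hp : ∀ n : ℕ, ∃ l : List S, l.length = 2 * n ∧ ev l = (gen d * gen a) ^ n := by
    intro n
    induction n with
    | zero => exact ⟨[], rfl, by simp⟩
    | succ n ih =>
      obtain ⟨l, h1, h2⟩ := ih
      refine ⟨l ++ [d, a], by simp [h1]; ring, ?_⟩
      rw [ev_append, h2, pow_succ]; simp
  obtain ⟨l, h1, h2⟩ := hp i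
  rcases h with rfl | rfl
  · exact ⟨l, by omega, h2⟩
  · exact ⟨l ++ [d], by simp [h1]; omega, by rw [ev_append, h2]; simp⟩

theorem D0_finite : (D0 : Set (Equiv.Perm (List Bool))).Finite := by
  apply Set.Finite.subset (s := (Set.range fun p : Fin 4 × Fin 2 =>
    (gen d * gen a) ^ (p.1 : ℕ) * gen d ^ (p.2 : ℕ))) (Set.finite_range _)
  intro w hw
  obtain ⟨i, hi, rfl | rfl⟩ := D0_form w hw
  · exact ⟨(⟨i, hi⟩, 0), by simp⟩
  · exact ⟨(⟨i, hi⟩, 1), by simp⟩

/-- every element of the dihedral group is moved to `1` or `d` by some power of `d a` -/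
theorem hit (w : Equiv.Perm (List Bool)) (hw : w ∈ D0) :
    ∃ j : ℕ, j < 4 ∧ (w * (gen d * gen a) ^ j = 1 ∨ w * (gen d * gen a) ^ j = gen d) := by
  obtain ⟨i, hi, rfl | rfl⟩ := D0_form w hw
  · rcases i with _ | i
    · exact ⟨0, by norm_num, Or.inl (by simp)⟩
    · refine ⟨4 - (i + 1), by omega, Or.inl ?_⟩
      rw [← pow_add, show i + 1 + (4 - (i + 1)) = 4 by omega, ad4]
  · refine ⟨i, hi, Or.inr ?_⟩
    have : ∀ n : ℕ, (gen d * gen a) ^ n * gen d * (gen d * gen a) ^ n = gen d := by
      intro n
      induction n with
      | zero => simp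
      | succ n ih =>
        have e1 : (gen d * gen a) ^ (n + 1) * gen d * (gen d * gen a) ^ (n + 1) =
            (gen d * gen a) * ((gen d * gen a) ^ n * gen d * (gen d * gen a) ^ n) *
              (gen d * gen a) := by
          calc (gen d * gen a) ^ (n + 1) * gen d * (gen d * gen a) ^ (n + 1)
              = ((gen d * gen a) * (gen d * gen a) ^ n) * gen d *
                ((gen d * gen a) ^ n * (gen d * gen a)) := by rw [← pow_succ', ← pow_succ]
            _ = _ := by simp only [mul_assoc]
        rw [e1, ih]
        calc gen d * gen a * gen d * (gen d * gen a) = gen d * (gen a * (gen d * gen d) * gen a) := by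
              group
          _ = gen d := by rw [gen_mul_self, mul_one, gen_mul_self, mul_one]
    exact this i

end Pool.Agent.X265.Gri
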