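import Pool.Agent.X265.Gri.Base

/-! The Grigorchuk group: lifting words to both coordinates at the same time. -/

set_option autoImplicit false

namespace Pool.Agent.X265.Gri

open S

/-- `a s_1 a s_2 ... a s_k` -/
def alt (ss : List S) : List S := ss.flatMap fun s => [a, s]

/-- `t_1 a t_2 a ... t_k a` -/
def talt (ts : List S) : List S := ts.flatMap fun t => [t, a]

@[simp] theorem alt_nil : alt [] = [] := rfl
@[simp] theorem alt_cons (s : S) (ss : List S) : alt (s :: ss) = a :: s :: alt ss := by simp [alt]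
@[simp] theorem alt_append (p q : List S) : alt (p ++ q) = alt p ++ alt q := by simp [alt]
@[simp] theorem talt_nil : talt [] = [] := rfl
@[simp] theorem talt_cons (s : S) (ss : List S) : talt (s :: ss) = s :: a :: talt ss := by
  simp [talt]
@[simp] theorem talt_append (p q : List S) : talt (p ++ q) = talt p ++ talt q := by simp [talt]

/-- the word `u` can be lifted to the first coordinate so that the second coordinate passes one
more star -/
def Cross (u : List S) : Prop :=
  ∀ w ∈ D0, ∀ t : S, t ≠ a → ∃ e, R u e ∧ ∃ w' ∈ D0, w * e = gen t * gen a * w'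

theorem cross_at (X : Equiv.Perm (List Bool)) (hX : X = 1 ∨ X = gen d) (t : S)
    (ht : t = b ∨ t = c) : ∃ w ∈ D0, X * gen c = gen t * gen a * w := by
  rcases ht with rfl | rfl
  · rcases hX with rfl | rfl
    · refine ⟨gen a * gen d, mul_mem a_mem d_mem, ?_⟩
      rw [one_mul, mul_assoc, ← mul_assoc (gen a) (gen a), gen_mul_self, one_mul, bd]
    · refine ⟨gen a, a_mem, ?_⟩
      rw [mul_assoc, gen_mul_self, mul_one, dc]
  · rcases hX with rfl | rfl
    · refine ⟨gen a, a_mem, ?_⟩
      rw [mul_assoc, gen_mul_self, mul_one, one_mul]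
    · refine ⟨gen a * gen d, mul_mem a_mem d_mem, ?_⟩
      rw [mul_assoc, ← mul_assoc (gen a) (gen a), gen_mul_self, one_mul, cd, dc]

theorem R_seq (y : S) (hy : y = c ∨ y = d) (x1 x2 x3 x4 : Equiv.Perm (List Bool))
    (h1 : R [a] x1) (h2 : R [a] x2) (h3 : R [a] x3) (h4 : R [a] x4) :
    R [a, c, a, y, a, c, a] (x1 * (gen a * (x2 * (gen a * (x3 * (gen a * x4)))))) := by
  have hY : R [y] (gen a) := by
    rcases hy with rfl | rfl
    · exact R_c
    · exact R_d
  exact R_append h1 (R_append R_c (R_append h2 (R_append hY (R_append h3 (R_append R_c h4)))))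

theorem cross_core (y : S) (hy : y = c ∨ y = d) : Cross [a, c, a, y, a, c, a] := by
  intro w hw t ht
  have hA := a_mem
  have hD := d_mem
  by_cases htd : t = d
  · subst htd
    obtain ⟨e, h1, h2⟩ := exists_R [a, c, a, y, a, c, a]
    refine ⟨e, h2, gen a * (gen d * (w * e)), mul_mem hA (mul_mem hD (mul_mem hw h1)), ?_⟩
    rw [mul_assoc, ← mul_assoc (gen a) (gen a), gen_mul_self, one_mul, ← mul_assoc (gen d),
      gen_mul_self, one_mul]
  · have ht' : t = b ∨ t = c := by
      cases t
      · exact absurd rfl ht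
      · exact Or.inl rfl
      · exact Or.inr rfl
      · exact absurd rfl htd
    obtain ⟨j, hj, hX⟩ := hit w hw
    obtain ⟨w', h1, h2⟩ := cross_at _ hX t ht'
    have fin : ∀ e r : Equiv.Perm (List Bool), R [a, c, a, y, a, c, a] e → r ∈ D0 →
        w * e = w * (gen d * gen a) ^ j * gen c * r →
        ∃ e, R [a, c, a, y, a, c, a] e ∧ ∃ w' ∈ D0, w * e = gen t * gen a * w' := by
      intro e r h3 h4 h5
      refine ⟨e, h3, w' * r, mul_mem h1 h4, ?_⟩
      rw [h5, h2, mul_assoc (gen t * gen a)]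
    interval_cases j
    · refine fin _ (gen a * (gen d * (gen a * (gen d * (gen a * gen d)))))
        (R_seq y hy (gen c) (gen d) (gen d) (gen d) R_a_c R_a_d R_a_d R_a_d)
        (mul_mem hA (mul_mem hD (mul_mem hA (mul_mem hD (mul_mem hA hD))))) ?_
      simp only [pow_zero, mul_one, mul_assoc]
    · refine fin _ (gen a * (gen d * (gen a * gen d)))
        (R_seq y hy (gen d) (gen c) (gen d) (gen d) R_a_d R_a_c R_a_d R_a_d)
        (mul_mem hA (mul_mem hD (mul_mem hA hD))) ?_
      simp only [pow_one, mul_assoc]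
    · refine fin _ (gen a * gen d)
        (R_seq y hy (gen d) (gen d) (gen c) (gen d) R_a_d R_a_d R_a_c R_a_d)
        (mul_mem hA hD) ?_
      simp only [pow_succ, pow_zero, one_mul, mul_assoc]
    · refine fin _ 1
        (R_seq y hy (gen d) (gen d) (gen d) (gen c) R_a_d R_a_d R_a_d R_a_c)
        (one_mem _) ?_
      simp only [pow_succ, pow_zero, one_mul, mul_one, mul_assoc]

theorem Cross.ext {u : List S} (h : Cross u) (p s : List S) : Cross (p ++ u ++ s) := by
  intro w hw t ht
  obtain ⟨ep, h1, h2⟩ := exists_R p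
  obtain ⟨es, h3, h4⟩ := exists_R s
  obtain ⟨e, h5, w', h6, h7⟩ := h (w * ep) (mul_mem hw h1) t ht
  refine ⟨ep * e * es, R_append (R_append h2 h5) h4, w' * es, mul_mem h6 h3, ?_⟩
  rw [← mul_assoc, ← mul_assoc, h7, mul_assoc (gen t * gen a)]

theorem up_star (s : S) (hs : s ≠ a) : ∃ y, up s = [a, y, a] ∧ (s ≠ c → y = c ∨ y = d) := by
  cases s
  · exact absurd rfl hs
  · exact ⟨d, rfl, fun _ => Or.inr rfl⟩
  · exact ⟨b, rfl, fun h => absurd rfl h⟩
  · exact ⟨c, rfl, fun _ => Or.inl rfl⟩

theorem cross_alt (p q : List S) (s1 s s2 : S) (h1 : s1 ≠ a) (h : s ≠ a) (h2 : s2 ≠ a)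
    (hc : s ≠ c) : Cross (Ul (alt (p ++ s1 :: s :: s2 :: q))) := by
  obtain ⟨y1, e1, -⟩ := up_star s1 h1
  obtain ⟨y, e, hy⟩ := up_star s h
  obtain ⟨y2, e2, -⟩ := up_star s2 h2
  have : Ul (alt (p ++ s1 :: s :: s2 :: q)) =
      (Ul (alt p) ++ [c, a, y1]) ++ [a, c, a, y, a, c, a] ++ ([y2, a] ++ Ul (alt q)) := by
    simp only [alt_append, alt_cons, Ul_append, Ul_cons, e1, e, e2]
    simp [up]
  rw [this]
  exact (cross_core y (hy hc)).ext _ _

/-- no eight consecutive letters `c` -/
def NoRun (ss : List S) : Prop := ∀ p q : List S, ss ≠ p ++ List.replicate 8 c ++ q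

theorem cross_group (G q : List S) (hG : G.length = 10) (ha : ∀ s ∈ G, s ≠ a)
    (hN : NoRun (G ++ q)) : Cross (Ul (alt G)) := by
  match G, hG with
  | [g0, g1, g2, g3, g4, g5, g6, g7, g8, g9], _ =>
    have ha' : g0 ≠ a ∧ g1 ≠ a ∧ g2 ≠ a ∧ g3 ≠ a ∧ g4 ≠ a ∧ g5 ≠ a ∧ g6 ≠ a ∧ g7 ≠ a ∧ g8 ≠ a ∧
        g9 ≠ a := by
      refine ⟨?_, ?_, ?_, ?_, ?_, ?_, ?_, ?_, ?_, ?_⟩ <;> exact ha _ (by simp)
    obtain ⟨a0, a1, a2, a3, a4, a5, a6, a7, a8, a9⟩ := ha'
    by_cases h1 : g1 = c
    swap
    · exact cross_alt [] _ g0 g1 g2 a0 a1 a2 h1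
    by_cases h2 : g2 = c
    swap
    · exact cross_alt [g0] _ g1 g2 g3 a1 a2 a3 h2
    by_cases h3 : g3 = c
    swap
    · exact cross_alt [g0, g1] _ g2 g3 g4 a2 a3 a4 h3
    by_cases h4 : g4 = c
    swap
    · exact cross_alt [g0, g1, g2] _ g3 g4 g5 a3 a4 a5 h4
    by_cases h5 : g5 = c
    swap
    · exact cross_alt [g0, g1, g2, g3] _ g4 g5 g6 a4 a5 a6 h5
    by_cases h6 : g6 = c
    swap
    · exact cross_alt [g0, g1, g2, g3, g4] _ g5 g6 g7 a5 a6 a7 h6
    by_cases h7 : g7 = c
    swap
    · exact cross_alt [g0, g1, g2, g3, g4, g5] _ g6 g7 g8 a6 a7 a8 h7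
    by_cases h8 : g8 = c
    swap
    · exact cross_alt [g0, g1, g2, g3, g4, g5, g6] _ g7 g8 g9 a7 a8 a9 h8
    exfalso
    refine hN [g0] (g9 :: q) ?_
    subst h1 h2 h3 h4 h5 h6 h7 h8
    rfl

theorem groups (n : ℕ) (ss : List S) (ha : ∀ s ∈ ss, s ≠ a) (hN : NoRun ss)
    (hn : 10 * n ≤ ss.length) : ∃ (Us : List (List S)) (rest : List S), Us.length = n ∧
      (∀ u ∈ Us, Cross u) ∧ Ul (alt ss) = Us.flatten ++ Ul (alt rest) ∧
      rest.length + 10 * n = ss.length ∧ ∀ s ∈ rest, s ≠ a := by
  induction n generalizing ss with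
  | zero => exact ⟨[], ss, rfl, by simp, by simp, by simp, ha⟩
  | succ n ih =>
    have hl : (ss.take 10).length = 10 := by rw [List.length_take]; omega
    have hN' : NoRun (ss.drop 10) := by
      intro p q h
      refine hN (ss.take 10 ++ p) q ?_
      conv_lhs => rw [← List.take_append_drop 10 ss, h]
      simp only [List.append_assoc]
    obtain ⟨Us, rest, h1, h2, h3, h4, h5⟩ := ih (ss.drop 10)
      (fun s hs => ha s (List.mem_of_mem_drop hs)) hN' (by rw [List.length_drop]; omega)
    refine ⟨Ul (alt (ss.take 10)) :: Us, rest, by simp [h1], ?_, ?_, ?_, h5⟩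
    · intro u hu
      rcases List.mem_cons.1 hu with rfl | hu
      · refine cross_group (ss.take 10) (ss.drop 10) hl
          (fun s hs => ha s (List.mem_of_mem_take hs)) ?_
        rw [List.take_append_drop]
        exact hN
      · exact h2 u hu
    · conv_lhs => rw [← List.take_append_drop 10 ss, alt_append, Ul_append, h3]
      simp
    · rw [List.length_drop] at h4
      omega

/-- several crossings -/
theorem chunks (Us : List (List S)) (hU : ∀ u ∈ Us, Cross u) (ts : List S)
    (ht : ∀ t ∈ ts, t ≠ a) (hl : Us.length ≤ ts.length) (w : Equiv.Perm (List Bool))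
    (hw : w ∈ D0) : ∃ e, R Us.flatten e ∧ ∃ w' ∈ D0,
      w * e = ev (talt (ts.take Us.length)) * w' := by
  induction Us generalizing ts w with
  | nil => exact ⟨1, R_nil, w, hw, by simp⟩
  | cons u Us ih =>
    rcases ts with _ | ⟨t, ts⟩
    · simp at hl
    · obtain ⟨e1, h1, w1, h2, h3⟩ := hU u (by simp) w hw t (ht t (by simp))
      obtain ⟨e2, h4, w2, h5, h6⟩ := ih (fun u hu => hU u (by simp [hu])) ts
        (fun t h => ht t (by simp [h])) (by simpa using hl) w1 h2
      refine ⟨e1 * e2, ?_, w2, h5, ?_⟩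
      · rw [List.flatten_cons]
        exact R_append h1 h4
      · rw [← mul_assoc, h3, mul_assoc, h6, List.length_cons, List.take_succ_cons, talt_cons,
          ev_cons, ev_cons]
        simp only [mul_assoc]

theorem third (x s : S) (hx : x ≠ a) (hs : s ≠ a) (hn : x ≠ s) :
    ∃ r, r ≠ a ∧ gen x * gen s = gen r := by
  cases x <;> cases s <;> first | exact absurd rfl hx | exact absurd rfl hs | exact absurd rfl hn | skip
  · exact ⟨d, by decide, bc⟩
  · exact ⟨c, by decide, bd⟩
  · exact ⟨d, by decide, cb⟩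
  · exact ⟨b, by decide, cd⟩
  · exact ⟨c, by decide, db⟩
  · exact ⟨b, by decide, dc⟩

/-- alternating form -/
theorem nf (l : List S) : ∃ f ss f' : List S, (f = [] ∨ ∃ s, s ≠ a ∧ f = [s]) ∧
    (∀ s ∈ ss, s ≠ a) ∧ (f' = [] ∨ f' = [a]) ∧ ev l = ev (f ++ alt ss ++ f') ∧
    f.length + 2 * ss.length + f'.length ≤ l.length := by
  induction l with
  | nil => exact ⟨[], [], [], Or.inl rfl, by simp, Or.inl rfl, by simp, by simp⟩
  | cons x l ih =>
    obtain ⟨f, ss, f', h1, h2, h3, h4, h5⟩ := ih
    by_cases hx : x = a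
    · subst hx
      rcases h1 with rfl | ⟨s, hs, rfl⟩
      · rcases ss with _ | ⟨s, ss⟩
        · rcases h3 with rfl | rfl
          · refine ⟨[], [], [a], Or.inl rfl, by simp, Or.inr rfl, ?_, by simp⟩
            rw [ev_cons, h4]; simp
          · refine ⟨[], [], [], Or.inl rfl, by simp, Or.inl rfl, ?_, by simp⟩
            rw [ev_cons, h4]; simp [gen_mul_self]
        · refine ⟨[s], ss, f', Or.inr ⟨s, h2 s (by simp), rfl⟩,
            fun r hr => h2 r (by simp [hr]), h3, ?_, ?_⟩
          · rw [ev_cons, h4]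
            simp only [List.nil_append, alt_cons, List.cons_append, ev_cons]
            rw [← mul_assoc, gen_mul_self, one_mul]
          · simp only [List.length_nil, List.length_cons] at h5 ⊢
            omega
      · refine ⟨[], s :: ss, f', Or.inl rfl, ?_, h3, ?_, ?_⟩
        · intro r hr
          rcases List.mem_cons.1 hr with rfl | hr
          · exact hs
          · exact h2 r hr
        · rw [ev_cons, h4]
          simp
        · simp only [List.length_nil, List.length_cons] at h5 ⊢
          omega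
    · rcases h1 with rfl | ⟨s, hs, rfl⟩
      · refine ⟨[x], ss, f', Or.inr ⟨x, hx, rfl⟩, h2, h3, ?_, ?_⟩
        · rw [ev_cons, h4]; simp
        · simp only [List.length_nil, List.length_cons] at h5 ⊢
          omega
      · by_cases hxs : x = s
        · subst hxs
          refine ⟨[], ss, f', Or.inl rfl, h2, h3, ?_, ?_⟩
          · rw [ev_cons, h4]
            simp only [List.cons_append, List.nil_append, ev_cons]
            rw [← mul_assoc, gen_mul_self, one_mul]
          · simp only [List.length_nil, List.length_cons] at h5 ⊢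
            omega
        · obtain ⟨r, hr, h6⟩ := third x s hx hs hxs
          refine ⟨[r], ss, f', Or.inr ⟨r, hr, rfl⟩, h2, h3, ?_, ?_⟩
          · rw [ev_cons, h4]
            simp only [List.cons_append, List.nil_append, ev_cons]
            rw [← mul_assoc, h6]
          · simp only [List.length_nil, List.length_cons] at h5 ⊢
            omega

/-- an alternating form without eight consecutive `c` -/
theorem nf_min (l : List S) : ∃ f ss f' : List S, (f = [] ∨ ∃ s, s ≠ a ∧ f = [s]) ∧
    (∀ s ∈ ss, s ≠ a) ∧ (f' = [] ∨ f' = [a]) ∧ ev l = ev (f ++ alt ss ++ f') ∧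
    2 * ss.length ≤ l.length ∧ NoRun ss := by
  classical
  let P : ℕ → Prop := fun k => ∃ f ss f' : List S, (f = [] ∨ ∃ s, s ≠ a ∧ f = [s]) ∧
    (∀ s ∈ ss, s ≠ a) ∧ (f' = [] ∨ f' = [a]) ∧ ev l = ev (f ++ alt ss ++ f') ∧ ss.length = k
  obtain ⟨f0, ss0, f0', h1, h2, h3, h4, h5⟩ := nf l
  have hP : ∃ k, P k := ⟨_, f0, ss0, f0', h1, h2, h3, h4, rfl⟩
  obtain ⟨f, ss, f', g1, g2, g3, g4, g5⟩ := Nat.find_spec hP
  have hmin : Nat.find hP ≤ ss0.length := Nat.find_min' hP ⟨f0, ss0, f0', h1, h2, h3, h4, rfl⟩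
  refine ⟨f, ss, f', g1, g2, g3, g4, by omega, ?_⟩
  intro p q hpq
  have hlt : (p ++ q).length < Nat.find hP := by
    rw [← g5, hpq]
    simp only [List.length_append, List.length_replicate]
    omega
  refine Nat.find_min hP hlt ⟨f, p ++ q, f', g1, ?_, g3, ?_, rfl⟩
  · intro s hs
    apply g2
    rw [hpq]
    simp only [List.mem_append] at hs ⊢
    tauto
  · have h8 : ev (alt (List.replicate 8 c)) = 1 := by
      have e : alt (List.replicate 8 c) = (List.replicate 8 [a, c]).flatten := by
        simp [List.replicate]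
      have e2 : ∀ n : ℕ, ev (List.replicate n [a, c]).flatten = (gen a * gen c) ^ n := by
        intro n
        induction n with
        | zero => simp
        | succ n ih =>
          rw [List.replicate_succ, List.flatten_cons, ev_append, ih, pow_succ']
          simp
      rw [e, e2, ac8]
    rw [g4, hpq]
    simp only [alt_append, ev_append, h8, mul_one]

end Pool.Agent.X265.Gri
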