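import Pool.Agent.X265.Gri.Merge

/-! The Grigorchuk group: depth and length. -/

set_option autoImplicit false

namespace Pool.Agent.X265.Gri

open S

/-- the section of `g` at the vertex `u` -/
def sec (g : List Bool → List Bool) (u : List Bool) : List Bool → List Bool :=
  fun w => (g (u ++ w)).drop u.length

/-- all sections of level `n` are trivial or letters -/
def DL (n : ℕ) (g : List Bool → List Bool) : Prop :=
  ∀ u : List Bool, u.length = n → ∃ q : Option S, sec g u = act q

theorem sec_pr_false (ε : Bool) (g0 g1 : Equiv.Perm (List Bool)) (u : List Bool) :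
    sec ⇑((bif ε then gen a else 1) * pr g0 g1) (false :: u) = sec g0 u := by
  funext w
  cases ε
  · simp only [cond_false, one_mul]
    rfl
  · show (act (some a) (false :: g0 (u ++ w))).drop (u.length + 1) = _
    show (true :: act none (g0 (u ++ w))).drop (u.length + 1) = _
    rw [act_none]
    rfl

theorem sec_pr_true (ε : Bool) (g0 g1 : Equiv.Perm (List Bool)) (u : List Bool) :
    sec ⇑((bif ε then gen a else 1) * pr g0 g1) (true :: u) = sec g1 u := by
  funext w
  cases ε
  · simp only [cond_false, one_mul]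
    rfl
  · show (act (some a) (true :: g1 (u ++ w))).drop (u.length + 1) = _
    show (false :: act none (g1 (u ++ w))).drop (u.length + 1) = _
    rw [act_none]
    rfl

theorem DL_succ (n : ℕ) (ε : Bool) (g0 g1 : Equiv.Perm (List Bool)) :
    DL (n + 1) ⇑((bif ε then gen a else 1) * pr g0 g1) ↔ DL n g0 ∧ DL n g1 := by
  constructor
  · intro h
    refine ⟨fun u hu => ?_, fun u hu => ?_⟩
    · rw [← sec_pr_false ε g0 g1]
      exact h (false :: u) (by simp [hu])
    · rw [← sec_pr_true ε g0 g1]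
      exact h (true :: u) (by simp [hu])
  · rintro ⟨h0, h1⟩ u hu
    rcases u with _ | ⟨x, u⟩
    · simp at hu
    · cases x
      · rw [sec_pr_false]
        exact h0 u (by simpa using hu)
      · rw [sec_pr_true]
        exact h1 u (by simpa using hu)

theorem DL_mono_succ (n : ℕ) (g : List Bool → List Bool) (h : DL n g) : DL (n + 1) g := by
  intro u hu
  have hne : u ≠ [] := by rintro rfl; simp at hu
  obtain ⟨v, x, rfl⟩ : ∃ v x, u = v ++ [x] :=
    ⟨u.dropLast, u.getLast hne, (List.dropLast_append_getLast hne).symm⟩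
  obtain ⟨q, hq⟩ := h v (by simpa using hu)
  refine ⟨nxt q x, ?_⟩
  funext w
  have h1 := congrFun hq (x :: w)
  unfold sec at h1 ⊢
  rw [List.append_assoc, List.singleton_append, List.length_append, List.length_singleton,
    ← List.drop_drop, h1]
  rfl

theorem DL_mono {m n : ℕ} (hmn : m ≤ n) (g : List Bool → List Bool) (h : DL m g) : DL n g := by
  induction hmn with
  | refl => exact h
  | step _ ih => exact DL_mono_succ _ _ ih

/-- number of stars -/
def nst (l : List S) : ℕ := l.countP fun s => s ≠ a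

theorem split (l : List S) : ∃ (ε : Bool) (l0 l1 : List S), l0.length ≤ nst l ∧
    l1.length ≤ nst l ∧ ev l = (bif ε then gen a else 1) * pr (ev l0) (ev l1) := by
  induction l with
  | nil => exact ⟨false, [], [], by simp [nst], by simp [nst], by simp [pr_one]⟩
  | cons s l ih =>
    obtain ⟨ε, l0, l1, h0, h1, h⟩ := ih
    by_cases hs : s = a
    · subst hs
      refine ⟨!ε, l0, l1, by simpa [nst] using h0, by simpa [nst] using h1, ?_⟩
      rw [ev_cons, h]
      cases ε
      · simp
      · simp [← mul_assoc, gen_mul_self]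
    · have hn : nst (s :: l) = nst l + 1 := by
        unfold nst
        rw [List.countP_cons]
        simp [hs]
      obtain ⟨m0, m1, k0, k1, hm⟩ : ∃ m0 m1 : List S, m0.length ≤ 1 ∧ m1.length ≤ 1 ∧
          gen s = pr (ev m0) (ev m1) := by
        cases s
        · exact absurd rfl hs
        · exact ⟨[a], [c], by simp, by simp, by simp [genb]⟩
        · exact ⟨[a], [d], by simp, by simp, by simp [genc]⟩
        · exact ⟨[], [b], by simp, by simp, by simp [gend]⟩
      cases ε
      · refine ⟨false, m0 ++ l0, m1 ++ l1, by simp; omega, by simp; omega, ?_⟩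
        rw [ev_cons, h, hm]
        simp [pr_mul]
      · refine ⟨true, m1 ++ l0, m0 ++ l1, by simp; omega, by simp; omega, ?_⟩
        rw [ev_cons, h]
        simp only [cond_true, ev_append]
        rw [← pr_mul, ← swap (ev m0) (ev m1), ← hm]
        simp only [← mul_assoc, gen_mul_self, one_mul]

theorem nst_alt (ss : List S) : nst (alt ss) ≤ ss.length := by
  induction ss with
  | nil => simp [nst]
  | cons s ss ih =>
    unfold nst at ih ⊢
    rw [alt_cons, List.countP_cons, List.countP_cons, List.length_cons]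
    have : (if decide (s ≠ a) = true then 1 else 0) ≤ 1 := by split_ifs <;> simp
    simp only [ne_eq, not_true_eq_false, decide_false, Bool.false_eq_true, if_false]
    simp only [ne_eq] at this ih
    omega

/-- an alternating word has few stars -/
theorem few (l : List S) : ∃ m : List S, ev m = ev l ∧ 2 * nst m ≤ l.length + 1 := by
  obtain ⟨f, ss, f', h1, h2, h3, h4, h5⟩ := nf l
  refine ⟨f ++ alt ss ++ f', h4.symm, ?_⟩
  have e1 : nst (f ++ alt ss ++ f') = nst f + nst (alt ss) + nst f' := by simp [nst, add_assoc]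
  have e2 : nst f' = 0 := by rcases h3 with rfl | rfl <;> simp [nst]
  have e3 : nst f ≤ f.length := List.countP_le_length
  have e4 := nst_alt ss
  have e5 : f.length ≤ 1 := by rcases h1 with rfl | ⟨s, -, rfl⟩ <;> simp
  omega

theorem exists_DL (l : List S) : ∃ n, DL n (ev l) := by
  induction hn : l.length using Nat.strong_induction_on generalizing l with
  | _ n ih =>
    subst hn
    by_cases hl : l.length ≤ 1
    · refine ⟨0, fun u hu => ?_⟩
      have : u = [] := List.length_eq_zero_iff.1 hu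
      subst this
      rcases l with _ | ⟨s, _ | ⟨t, l⟩⟩
      · refine ⟨none, ?_⟩
        funext w
        rw [act_none]
        rfl
      · refine ⟨some s, ?_⟩
        funext w
        show ev [s] w = _
        simp [gen_apply]
      · simp at hl
    · obtain ⟨m, hm, h2⟩ := few l
      obtain ⟨ε, l0, l1, h3, h4, h5⟩ := split m
      obtain ⟨n0, h6⟩ := ih l0.length (by omega) l0 rfl
      obtain ⟨n1, h7⟩ := ih l1.length (by omega) l1 rfl
      refine ⟨max n0 n1 + 1, ?_⟩
      rw [← hm, h5, DL_succ]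
      exact ⟨DL_mono (le_max_left _ _) _ h6, DL_mono (le_max_right _ _) _ h7⟩

/-- every element of depth at most `n` is a product of at most `L` letters -/
def P (n L : ℕ) : Prop := ∀ l : List S, DL n (ev l) → Len (ev l) L

theorem P_zero : P 0 1 := by
  intro l h
  obtain ⟨q, hq⟩ := h [] rfl
  have h2 : ∀ w, ev l w = act q w := by
    intro w
    have := congrFun hq w
    simpa [sec] using this
  rcases q with _ | s
  · refine ⟨[], by simp, ?_⟩
    ext1 w
    rw [h2, act_none]
    rfl
  · refine ⟨[s], by simp, ?_⟩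
    ext1 w
    rw [h2]
    simp [gen_apply]

theorem P_succ (n L : ℕ) (h : P n L) : ∃ L', P (n + 1) L' := by
  refine ⟨100 * L + 1000 + K0, ?_⟩
  intro l hl
  obtain ⟨ε, l0, l1, -, -, h5⟩ := split l
  rw [h5, DL_succ] at hl
  obtain ⟨m0, h6, h7⟩ := h l0 hl.1
  obtain ⟨m1, h8, h9⟩ := h l1 hl.2
  rw [← h7, ← h9] at h5
  obtain ⟨p, q, r, hp, hq, hr, hw⟩ := plain m0 m1 ε (ev l) ⟨l, rfl⟩ h5
  refine ⟨_, ?_, hw.symm⟩
  simp only [List.length_append, Ul_append, List.length_cons, List.length_nil]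
  have := length_Ul_le m0
  have := length_Ul_le m1
  have := length_Ul_le q
  omega

theorem P_step : ∃ C : ℕ, ∀ n L : ℕ, P n L → P (n + 2) ((158 * L + C) / 10) := by
  obtain ⟨C, hC⟩ := two_level
  refine ⟨C, fun n L h l hl => ?_⟩
  obtain ⟨ε, l0, l1, -, -, h5⟩ := split l
  obtain ⟨ε0, l00, l01, -, -, h6⟩ := split l0
  obtain ⟨ε1, l10, l11, -, -, h7⟩ := split l1
  rw [h5, DL_succ] at hl
  obtain ⟨hl0, hl1⟩ := hl
  rw [h6, DL_succ] at hl0
  rw [h7, DL_succ] at hl1
  obtain ⟨m00, a1, a2⟩ := h l00 hl0.1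
  obtain ⟨m01, b1, b2⟩ := h l01 hl0.2
  obtain ⟨m10, c1, c2⟩ := h l10 hl1.1
  obtain ⟨m11, d1, d2⟩ := h l11 hl1.2
  rw [← a2, ← b2] at h6
  rw [← c2, ← d2] at h7
  obtain ⟨m, h8, h9⟩ := hC ε ε0 ε1 m00 m01 m10 m11 (ev l) (ev l0) (ev l1) L a1 b1 c1 d1
    ⟨l, rfl⟩ ⟨l0, rfl⟩ ⟨l1, rfl⟩ h5 h6 h7
  refine ⟨m, ?_, h8⟩
  rw [Nat.le_div_iff_mul_le (by norm_num)]
  omega

theorem growth : ∃ M : ℝ, 0 < M ∧ ∀ n : ℕ, ∃ L : ℕ, P n L ∧
    (L : ℝ) ≤ M * (Real.sqrt (158 / 10)) ^ n := by
  obtain ⟨C, hC⟩ := P_step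
  obtain ⟨L1, hL1⟩ := P_succ 0 1 P_zero
  have hθ : (1 : ℝ) ≤ Real.sqrt (158 / 10) := by
    rw [show (1 : ℝ) = Real.sqrt 1 by simp]
    exact Real.sqrt_le_sqrt (by norm_num)
  have hθ2 : Real.sqrt (158 / 10) ^ 2 = 158 / 10 := Real.sq_sqrt (by norm_num)
  have hM : (0 : ℝ) < (L1 : ℝ) + C + 1 := by positivity
  refine ⟨(L1 : ℝ) + C + 1, hM, ?_⟩
  have key : ∀ n : ℕ, (∃ L : ℕ, P n L ∧ (L : ℝ) + C ≤ ((L1 : ℝ) + C + 1) *
      (Real.sqrt (158 / 10)) ^ n) ∧ (∃ L : ℕ, P (n + 1) L ∧ (L : ℝ) + C ≤ ((L1 : ℝ) + C + 1) *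
      (Real.sqrt (158 / 10)) ^ (n + 1)) := by
    intro n
    induction n with
    | zero =>
      refine ⟨⟨1, P_zero, ?_⟩, ⟨L1, hL1, ?_⟩⟩
      · rw [pow_zero, mul_one, Nat.cast_one]
        have : (0 : ℝ) ≤ L1 := Nat.cast_nonneg _
        linarith
      · rw [zero_add, pow_one]
        nlinarith
    | succ n ih =>
      refine ⟨ih.2, ?_⟩
      obtain ⟨L, h1, h2⟩ := ih.1
      refine ⟨_, hC n L h1, ?_⟩
      have h3 : (((158 * L + C) / 10 : ℕ) : ℝ) ≤ ((158 * L + C : ℕ) : ℝ) / 10 := by
        exact_mod_cast Nat.cast_div_le (α := ℝ) (m := 158 * L + C) (n := 10)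
      push_cast at h3
      have h4 : (Real.sqrt (158 / 10)) ^ (n + 1 + 1) = (Real.sqrt (158 / 10)) ^ n * (158 / 10) := by
        rw [add_assoc, pow_add, hθ2]
      rw [h4]
      have h5 : (0 : ℝ) ≤ C := Nat.cast_nonneg _
      have h6 : (0 : ℝ) ≤ L := Nat.cast_nonneg _
      push_cast
      nlinarith
  intro n
  obtain ⟨L, h1, h2⟩ := (key n).1
  have h5 : (0 : ℝ) ≤ C := Nat.cast_nonneg _
  exact ⟨L, h1, by linarith⟩

end Pool.Agent.X265.Gri
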