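import Pool.Agent.X265.Gri.Cross

/-! The Grigorchuk group: lengths of lifts. -/

set_option autoImplicit false

namespace Pool.Agent.X265.Gri

open S

/-- `g` is a product of at most `n` letters -/
def Len (g : Equiv.Perm (List Bool)) (n : ℕ) : Prop := ∃ l : List S, l.length ≤ n ∧ ev l = g

theorem ev_Ul (u : List S) : ∃ e ∈ D0, ev (Ul u) = pr (ev u) e := by
  induction u with
  | nil => exact ⟨1, one_mem _, by simp [pr_one]⟩
  | cons s u ih =>
    obtain ⟨e, h1, h2⟩ := ih
    have key : ∃ e' ∈ D0, ev (up s) = pr (gen s) e' := by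
      cases s
      · exact ⟨gen d, d_mem, by simp [up, genc]⟩
      · exact ⟨1, one_mem _, by
          show ev [a, d, a] = _
          rw [conj_word, gend, swap]⟩
      · exact ⟨gen a, a_mem, by
          show ev [a, b, a] = _
          rw [conj_word, genb, swap]⟩
      · exact ⟨gen a, a_mem, by
          show ev [a, c, a] = _
          rw [conj_word, genc, swap]⟩
    obtain ⟨e', h3, h4⟩ := key
    refine ⟨e' * e, mul_mem h3 h1, ?_⟩
    rw [Ul_cons, ev_append, h4, h2, pr_mul, ev_cons]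

theorem exists_K0 : ∃ K : ℕ, ∀ δ ∈ D0, (∃ l, ev l = pr δ 1) →
    ∃ l : List S, l.length ≤ K ∧ ev l = pr δ 1 := by
  classical
  obtain ⟨K, hK⟩ := (D0_finite.image fun δ => if h : ∃ l, ev l = pr δ 1 then
    (h.choose).length else 0).bddAbove
  refine ⟨K, fun δ hδ h => ⟨h.choose, ?_, h.choose_spec⟩⟩
  have := hK ⟨δ, hδ, rfl⟩
  simpa only [dif_pos h] using this

/-- the bound for the corrections -/
noncomputable def K0 : ℕ := exists_K0.choose

theorem K0_spec : ∀ δ ∈ D0, (∃ l, ev l = pr δ 1) →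
    ∃ l : List S, l.length ≤ K0 ∧ ev l = pr δ 1 := exists_K0.choose_spec

theorem length_Ul_le (u : List S) : (Ul u).length ≤ 3 * u.length := by
  induction u with
  | nil => simp
  | cons s u ih =>
    rw [Ul_cons, List.length_append, List.length_cons]
    have : (up s).length ≤ 3 := by cases s <;> simp [up]
    omega

theorem length_Ul_alt (ss : List S) (h : ∀ s ∈ ss, s ≠ a) :
    (Ul (alt ss)).length = 4 * ss.length := by
  induction ss with
  | nil => simp
  | cons s ss ih =>
    obtain ⟨y, hy, -⟩ := up_star s (h s (by simp))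
    rw [alt_cons, Ul_cons, Ul_cons, List.length_append, List.length_append,
      ih (fun s hs => h s (by simp [hs])), hy]
    simp [up]
    ring

theorem length_Ul_talt (ss : List S) (h : ∀ s ∈ ss, s ≠ a) :
    (Ul (talt ss)).length = 4 * ss.length := by
  induction ss with
  | nil => simp
  | cons s ss ih =>
    obtain ⟨y, hy, -⟩ := up_star s (h s (by simp))
    rw [talt_cons, Ul_cons, Ul_cons, List.length_append, List.length_append,
      ih (fun s hs => h s (by simp [hs])), hy]
    simp [up]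
    ring

theorem length_Ul_Ul_alt (ss : List S) (h : ∀ s ∈ ss, s ≠ a) :
    (Ul (Ul (alt ss))).length = 8 * ss.length := by
  induction ss with
  | nil => simp
  | cons s ss ih =>
    have ih' := ih (fun s hs => h s (by simp [hs]))
    have hs := h s (by simp)
    rw [alt_cons, Ul_cons, Ul_cons, Ul_append, Ul_append, List.length_append, List.length_append,
      ih', List.length_cons]
    cases s
    · exact absurd rfl hs
    all_goals
      simp [up]
      ring

theorem length_Ul_Ul_le (u : List S) : (Ul (Ul u)).length ≤ 5 * u.length := by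
  induction u with
  | nil => simp
  | cons s u ih =>
    rw [Ul_cons, Ul_append, List.length_append, List.length_cons]
    have : (Ul (up s)).length ≤ 5 := by cases s <;> simp [up]
    omega

/-- the correction at the end of a lift -/
theorem finish (z : List S) (g U V e' : Equiv.Perm (List Bool)) (he : e' ∈ D0)
    (hz : ev z = pr (U * e') V) (hg : g = pr U V) (hG : ∃ l, ev l = g) :
    ∃ lc : List S, lc.length ≤ K0 ∧ ev (z ++ lc) = g := by
  obtain ⟨l, hl⟩ := hG
  have h1 : ev (z.reverse ++ l) = pr e'⁻¹ 1 := by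
    rw [ev_append, ev_reverse, hz, hl, hg, pr_inv, pr_mul, inv_mul_cancel]
    congr 1
    group
  obtain ⟨lc, h2, h3⟩ := K0_spec e'⁻¹ (inv_mem he) ⟨_, h1⟩
  refine ⟨lc, h2, ?_⟩
  rw [ev_append, hz, h3, hg, pr_mul, mul_one]
  congr 1
  group

/-- merging the lifts -/
theorem merge (pre rest : List S) (Us : List (List S)) (F ts T : List S)
    (hU : ∀ u ∈ Us, Cross u) (hl : Us.length ≤ ts.length) (ht : ∀ t ∈ ts, t ≠ a)
    (hF : F = [] ∨ F = [a]) (hT : T.length ≤ 1) (g : Equiv.Perm (List Bool))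
    (hG : ∃ l, ev l = g)
    (hg : g = pr (ev (pre ++ Us.flatten ++ rest)) (ev (F ++ talt ts ++ T))) :
    Len g ((Ul (pre ++ Us.flatten ++ rest)).length + 4 * (ts.length - Us.length) + (26 + K0)) := by
  have hFD : ev F ∈ D0 := by
    rcases hF with rfl | rfl
    · simp [one_mem]
    · simp [a_mem]
  obtain ⟨ep, hp1, hp2⟩ := exists_R pre
  obtain ⟨er, hr1, hr2⟩ := exists_R rest
  obtain ⟨e, he1, w2, hw2, he2⟩ := chunks Us hU ts ht hl ((ev F)⁻¹ * ep)
    (mul_mem (inv_mem hFD) hp1)
  obtain ⟨z, hz1, hz2⟩ := R_append (R_append hp2 he1) hr2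
  have hw3 : w2 * er ∈ D0 := mul_mem hw2 hr1
  have hE : ep * e * er = ev F * ev (talt (ts.take Us.length)) * (w2 * er) := by
    have : ep * e = ev F * (ev (talt (ts.take Us.length)) * w2) := by
      rw [← he2]; group
    rw [this]; group
  obtain ⟨l3, hl3, hl3'⟩ := D0_word _ (inv_mem hw3)
  obtain ⟨e', he', hR⟩ := ev_Ul (l3 ++ talt (ts.drop Us.length) ++ T)
  have hz' : ev ([a] ++ Ul (l3 ++ talt (ts.drop Us.length) ++ T) ++ [a]) =
      pr e' (ev (l3 ++ talt (ts.drop Us.length) ++ T)) := by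
    rw [ev_append, ev_append, hR]
    simp only [ev_cons, ev_nil, mul_one]
    rw [swap]
  have hV : ev (F ++ talt ts ++ T) =
      (ep * e * er) * ev (l3 ++ talt (ts.drop Us.length) ++ T) := by
    rw [hE]
    conv_lhs => rw [← List.take_append_drop Us.length ts]
    simp only [talt_append, ev_append, hl3']
    group
  obtain ⟨lc, hc1, hc2⟩ := finish
    (z ++ ([a] ++ Ul (l3 ++ talt (ts.drop Us.length) ++ T) ++ [a])) g
    (ev (pre ++ Us.flatten ++ rest)) (ev (F ++ talt ts ++ T)) e' he'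
    (by rw [ev_append, hz2, hz', pr_mul, hV]) hg hG
  refine ⟨_, ?_, hc2⟩
  have h1 : (Ul (l3 ++ talt (ts.drop Us.length) ++ T)).length ≤
      21 + 4 * (ts.length - Us.length) + 3 := by
    rw [Ul_append, Ul_append, List.length_append, List.length_append,
      length_Ul_talt _ (fun s hs => ht s (List.mem_of_mem_drop hs)), List.length_drop]
    have := length_Ul_le l3
    have := length_Ul_le T
    omega
  simp only [List.length_append, List.length_cons, List.length_nil] at h1 ⊢
  rw [hz1]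
  simp only [Ul_append, List.length_append] at h1 ⊢
  omega

/-- the plain lift -/
theorem plain (u0 u1 : List S) (ε : Bool) (g : Equiv.Perm (List Bool)) (hG : ∃ l, ev l = g)
    (hg : g = (bif ε then gen a else 1) * pr (ev u0) (ev u1)) :
    ∃ (pre l3 lc : List S), pre.length ≤ 1 ∧ l3.length ≤ 7 ∧ lc.length ≤ K0 ∧
      g = ev (pre ++ Ul u0 ++ ([a] ++ Ul (l3 ++ u1) ++ [a] ++ lc)) := by
  obtain ⟨e0, h1, h2⟩ := ev_Ul u0
  obtain ⟨l3, h3, h4⟩ := D0_word _ (inv_mem h1)
  obtain ⟨e', h5, h6⟩ := ev_Ul (l3 ++ u1)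
  have hz' : ev ([a] ++ Ul (l3 ++ u1) ++ [a]) = pr e' (ev (l3 ++ u1)) := by
    rw [ev_append, ev_append, h6]
    simp only [ev_cons, ev_nil, mul_one]
    rw [swap]
  have hz : ev (Ul u0 ++ ([a] ++ Ul (l3 ++ u1) ++ [a])) = pr (ev u0 * e') (ev u1) := by
    rw [ev_append, h2, hz', pr_mul, ev_append, h4, mul_inv_cancel_left]
  have hG' : ∃ l, ev l = pr (ev u0) (ev u1) := by
    obtain ⟨l, hl⟩ := hG
    cases ε
    · exact ⟨l, by rw [hl, hg]; simp⟩
    · refine ⟨a :: l, ?_⟩
      rw [ev_cons, hl, hg, ← mul_assoc]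
      simp [gen_mul_self]
  obtain ⟨lc, hc1, hc2⟩ := finish _ _ (ev u0) (ev u1) e' h5 hz rfl hG'
  refine ⟨bif ε then [a] else [], l3, lc, by cases ε <;> simp, h3, hc1, ?_⟩
  have e1 : (bif ε then [a] else []) ++ Ul u0 ++ ([a] ++ Ul (l3 ++ u1) ++ [a] ++ lc) =
      (bif ε then [a] else []) ++ ((Ul u0 ++ ([a] ++ Ul (l3 ++ u1) ++ [a])) ++ lc) := by
    simp only [List.append_assoc]
  rw [e1, ev_append, hc2, hg]
  cases ε <;> simp

/-- the two-level estimate -/
theorem two_level : ∃ C : ℕ, ∀ (ε ε0 ε1 : Bool) (l00 l01 l10 l11 : List S)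
    (g g0 g1 : Equiv.Perm (List Bool)) (L : ℕ),
    l00.length ≤ L → l01.length ≤ L → l10.length ≤ L → l11.length ≤ L →
    (∃ l, ev l = g) → (∃ l, ev l = g0) → (∃ l, ev l = g1) →
    g = (bif ε then gen a else 1) * pr g0 g1 →
    g0 = (bif ε0 then gen a else 1) * pr (ev l00) (ev l01) →
    g1 = (bif ε1 then gen a else 1) * pr (ev l10) (ev l11) →
    ∃ l, ev l = g ∧ 10 * l.length ≤ 158 * L + C := by
  refine ⟨10000 + 1000 * K0, ?_⟩
  intro ε ε0 ε1 l00 l01 l10 l11 g g0 g1 L h00 h01 h10 h11 hG hG0 hG1 hg hg0 hg1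
  obtain ⟨f0, s0, f0', a1, a2, a3, a4, a5, a6⟩ := nf_min l00
  obtain ⟨f1, s1, f1', b1, b2, b3, b4, b5⟩ := nf l01
  obtain ⟨f2, s2, f2', c1, c2, c3, c4, c5⟩ := nf l10
  obtain ⟨f3, s3, f3', d1, d2, d3, d4, d5⟩ := nf l11
  have hf0 : f0.length ≤ 1 := by rcases a1 with rfl | ⟨s, -, rfl⟩ <;> simp
  have hf1 : f1.length ≤ 1 := by rcases b1 with rfl | ⟨s, -, rfl⟩ <;> simp
  have hf2 : f2.length ≤ 1 := by rcases c1 with rfl | ⟨s, -, rfl⟩ <;> simp
  have hf3 : f3.length ≤ 1 := by rcases d1 with rfl | ⟨s, -, rfl⟩ <;> simp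
  have hf0' : f0'.length ≤ 1 := by rcases a3 with rfl | rfl <;> simp
  have hf1' : f1'.length ≤ 1 := by rcases b3 with rfl | rfl <;> simp
  have hf2' : f2'.length ≤ 1 := by rcases c3 with rfl | rfl <;> simp
  have hf3' : f3'.length ≤ 1 := by rcases d3 with rfl | rfl <;> simp
  -- a word for `g1`
  rw [c4, d4] at hg1
  obtain ⟨p1, q1, r1, hp1, hq1, hr1, hw1⟩ := plain _ _ ε1 g1 hG1 hg1
  have hN : (p1 ++ Ul (f2 ++ alt s2 ++ f2') ++ ([a] ++ Ul (q1 ++ (f3 ++ alt s3 ++ f3')) ++ [a] ++
      r1)).length ≤ 4 * s2.length + 4 * s3.length + (100 + K0) := by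
    simp only [List.length_append, Ul_append, length_Ul_alt s2 c2, length_Ul_alt s3 d2,
      List.length_cons, List.length_nil]
    have := length_Ul_le f2
    have := length_Ul_le f2'
    have := length_Ul_le f3
    have := length_Ul_le f3'
    have := length_Ul_le q1
    omega
  obtain ⟨F', ts', T', e1, e2, e3, e4, e5⟩ := nf (p1 ++ Ul (f2 ++ alt s2 ++ f2') ++
    ([a] ++ Ul (q1 ++ (f3 ++ alt s3 ++ f3')) ++ [a] ++ r1)).reverse
  have hrev : (alt ts').reverse = talt ts'.reverse := by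
    clear e2 e4 e5
    induction ts' with
    | nil => rfl
    | cons t ts ih => simp [ih]
  have hg1' : g1 = ev (T'.reverse ++ talt ts'.reverse ++ F'.reverse) := by
    rw [hw1]
    have h := congrArg (fun x => x⁻¹) e4
    rw [← ev_reverse, ← ev_reverse, List.reverse_reverse] at h
    rw [h, List.reverse_append, List.reverse_append, hrev, List.append_assoc]
  -- a word for `g0`
  rw [a4, b4] at hg0
  obtain ⟨p0, q0, r0, hp0, hq0, hr0, hw0⟩ := plain _ _ ε0 g0 hG0 hg0
  -- the groups
  obtain ⟨Us, rest, u1, u2, u3, u4, u5⟩ := groups (min (s0.length / 10) ts'.length) s0 a2 a6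
    (by have := Nat.min_le_left (s0.length / 10) ts'.length; omega)
  have hpre : ev (p0 ++ Ul (f0 ++ alt s0 ++ f0') ++ ([a] ++ Ul (q0 ++ (f1 ++ alt s1 ++ f1')) ++
      [a] ++ r0)) = ev ((p0 ++ Ul f0) ++ Us.flatten ++ (Ul (alt rest) ++ Ul f0' ++ ([a] ++
      Ul (q0 ++ (f1 ++ alt s1 ++ f1')) ++ [a] ++ r0))) := by
    congr 1
    simp only [Ul_append, u3, List.append_assoc]
  have hG' : ∃ l, ev l = pr g0 g1 := by
    obtain ⟨l, hl⟩ := hG
    cases ε
    · exact ⟨l, by rw [hl, hg]; simp⟩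
    · refine ⟨a :: l, ?_⟩
      rw [ev_cons, hl, hg, ← mul_assoc]
      simp [gen_mul_self]
  have hmerge := merge (p0 ++ Ul f0) (Ul (alt rest) ++ Ul f0' ++ ([a] ++
      Ul (q0 ++ (f1 ++ alt s1 ++ f1')) ++ [a] ++ r0)) Us T'.reverse ts'.reverse F'.reverse u2
      (by rw [u1, List.length_reverse]; exact Nat.min_le_right _ _)
      (fun t ht => e2 t (List.mem_reverse.1 ht))
      (by rcases e3 with rfl | rfl <;> simp)
      (by rcases e1 with rfl | ⟨s, -, rfl⟩ <;> simp) (pr g0 g1) hG'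
      (by rw [← hpre, ← hw0, ← hg1'])
  obtain ⟨l, hl1, hl2⟩ := hmerge
  have hlen : (Ul (p0 ++ Ul f0 ++ Us.flatten ++ (Ul (alt rest) ++ Ul f0' ++ ([a] ++
      Ul (q0 ++ (f1 ++ alt s1 ++ f1')) ++ [a] ++ r0)))).length ≤
      8 * s0.length + 8 * s1.length + (200 + 3 * K0) := by
    have h8 : (Ul (Ul (alt s0))).length = 8 * s0.length := length_Ul_Ul_alt s0 a2
    rw [u3, Ul_append, List.length_append] at h8
    have h9 : (Ul (Ul (alt s1))).length = 8 * s1.length := length_Ul_Ul_alt s1 b2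
    simp only [Ul_append, List.length_append, h9]
    have := length_Ul_le p0
    have := length_Ul_Ul_le f0
    have := length_Ul_Ul_le f0'
    have := length_Ul_Ul_le f1
    have := length_Ul_Ul_le f1'
    have := length_Ul_Ul_le q0
    have := length_Ul_le r0
    have := length_Ul_le [a]
    simp only [List.length_cons, List.length_nil] at this
    omega
  have hts : 2 * ts'.length ≤ 4 * s2.length + 4 * s3.length + (100 + K0) := by
    rw [List.length_reverse] at e5
    omega
  refine ⟨(bif ε then [a] else []) ++ l, ?_, ?_⟩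
  · rw [ev_append, hl2, hg]
    cases ε <;> simp
  · have hε : (bif ε then [a] else ([] : List S)).length ≤ 1 := by cases ε <;> simp
    rw [List.length_append]
    rw [List.length_reverse] at hl1
    rcases Nat.le_total (s0.length / 10) ts'.length with hm | hm
    · rw [u1, min_eq_left hm] at hl1
      omega
    · rw [u1, min_eq_right hm] at hl1
      omega

end Pool.Agent.X265.Gri
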